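import Pool.Agent.Helper23.MC.Goals1
import Pool.Agent.Helper49.GM.TS
import Pool.Agent.Helper31.GM.GL
import Pool.Agent.Helper31.RR.CB
import Pool.Agent.Helper6.RR.BO
import Pool.Agent.Helper42.PP.TRE
import Pool.Agent.Helper96.GM.TR

/-! The second moment of a function given by labels, with any number of majorant points and of
roughness points, `y ≤ (log x)^A`. -/

set_option autoImplicit false

open Finset Filter Topology

open scoped Classical

namespace Pool.Agent.Helper25.MC

open Pool.Agent.Helper88.PP (pr Rg om Sf SS uu vv ee LA VV QQ cost nc dd)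

open Pool.Agent.Helper88.RR (gg ab TB WB nz wb DB Db VM GB)

open Pool.Agent.Helper88.GM (In NI XI gB sp)

open Pool.Agent.Helper23.MC (SrA StmtTLA StmtTGA)

open Pool.Agent.Helper77.RR (VM_nonneg ab_nonneg expo)

open Pool.Agent.Helper3.PP (om_nonneg VV_nonneg mem_SS mem_LA LA_sub sumBB)

open Pool.Agent.Helper49.GM (tlc XI_nonneg)

theorem Sr_x {A E z x y : ℕ} (h : SrA A E z x y) : (E : ℝ) * Real.log z ≤ Real.log x := by
  obtain ⟨h1, h3, _⟩ := h
  have hz : (0 : ℝ) < z := lt_of_lt_of_le (Real.exp_pos _) h1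
  have h7 : ((z : ℝ)) ^ E ≤ x := by exact_mod_cast h3
  have h8 := Real.log_le_log (pow_pos hz E) h7
  rwa [Real.log_pow] at h8

theorem Sr_y {A E z x y : ℕ} (h : SrA A E z x y) : (E : ℝ) ^ 2 ≤ y := by
  have h0 := Sr_x h
  obtain ⟨h1, h3, _, h5, _⟩ := h
  refine le_trans ?_ h5
  refine le_trans ?_ h0
  have h2 : (E : ℝ) ≤ Real.log z := by
    have := Real.log_le_log (Real.exp_pos _) h1
    rwa [Real.log_exp] at this
  calc (E : ℝ) ^ 2 = E * E := by ring
    _ ≤ E * Real.log z := mul_le_mul_of_nonneg_left h2 (Nat.cast_nonneg _)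

theorem Sr_yz {A E z x y : ℕ} (hE : 4 ≤ E) (hA : A ^ 2 ≤ E) (h : SrA A E z x y) : y ≤ z := by
  have h0 := Sr_x h
  obtain ⟨h1, h3, _, h5, h6, h7⟩ := h
  have hE' : (4 : ℝ) ≤ E := by exact_mod_cast hE
  have hA' : (A : ℝ) ^ 2 ≤ E := by exact_mod_cast hA
  have h2 : (E : ℝ) ≤ Real.log z := by
    have := Real.log_le_log (Real.exp_pos _) h1
    rwa [Real.log_exp] at this
  have h8 : 0 < Real.log x := by nlinarith only [h0, hE', h2]
  set L : ℝ := Real.log (Real.log x) with hL
  have hA0 : (0 : ℝ) ≤ A := Nat.cast_nonneg _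
  have h9 : (A : ℝ) * L ≤ E := by
    rcases le_total L A with h | h
    · nlinarith only [hA', h]
    · rcases Nat.eq_zero_or_pos A with hA1 | hA1
      · subst hA1
        simp
      · have hA2 : (1 : ℝ) ≤ A := by exact_mod_cast hA1
        have hL1 : (1 : ℝ) ≤ L := hA2.trans h
        calc (A : ℝ) * L ≤ L * L := mul_le_mul_of_nonneg_right h (by linarith only [h, hA2])
          _ = L ^ 2 := by ring
          _ ≤ L ^ 3 := pow_le_pow_right₀ hL1 (by norm_num)
          _ ≤ E := h7
  have h10 : Real.log x ^ A = Real.exp (A * L) := by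
    rw [hL, Real.exp_nat_mul, Real.exp_log h8]
  have h11 : (y : ℝ) ≤ z := by
    calc (y : ℝ) ≤ Real.log x ^ A := h6
      _ = Real.exp (A * L) := h10
      _ ≤ Real.exp E := Real.exp_le_exp.mpr h9
      _ ≤ z := h1
  exact_mod_cast h11

theorem tga (hTLA : StmtTLA) : StmtTGA := by
  intro A
  have h0 : Pool.Agent.Helper88.GM.StmtGU := Pool.Agent.Helper31.GM.gu
  have h1 := hTLA A
  have h2 : Pool.Agent.Helper88.GM.StmtTR := Pool.Agent.Helper96.GM.tr Pool.Agent.Helper42.PP.tre
  have h3 : Pool.Agent.Helper88.RR.StmtCB := Pool.Agent.Helper31.RR.cb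
  obtain ⟨c, hc, ETL, hTL⟩ := h1
  obtain ⟨_, C', _, hC', h4⟩ := Pool.Agent.Helper24.PP.ma
  obtain ⟨C, hC, hCB⟩ := h3
  set c0 : ℝ := min c 1 / 2 with hc0
  have hc0p : 0 < c0 := by
    rw [hc0]
    have := lt_min hc one_pos
    linarith
  have hc1 : 2 * c0 ≤ c := by
    rw [hc0]
    have := min_le_left c 1
    linarith
  have hc2 : 2 * c0 ≤ 1 := by
    rw [hc0]
    have := min_le_right c 1
    linarith
  obtain ⟨Ee, hEe⟩ := expo c0 (8 * (3 * C ^ 2 * C' ^ 3)) hc0p (by positivity)
  refine ⟨c0, hc0p, max ETL (max Ee (max 64 (A ^ 2))), fun E z x y hE hS u v Q b hIn m q K hm hqm hV hK P hPy hPA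
    T cc F G0 hFG hT1 hT2 hT2' hT3 hT4 hT5 => ?_⟩
  have hE1 : ETL ≤ E := (le_max_left _ _).trans hE
  have hE3 : Ee ≤ E := ((le_max_left _ _).trans (le_max_right _ _)).trans hE
  have hE4 : 64 ≤ E := ((le_max_left _ _).trans
    ((le_max_right _ _).trans (le_max_right _ _))).trans hE
  have hE5 : A ^ 2 ≤ E := ((le_max_right _ _).trans
    ((le_max_right _ _).trans (le_max_right _ _))).trans hE
  have hM1 : 1 ≤ E / 16 := by omega
  have hEpos : (64 : ℝ) ≤ E := by exact_mod_cast hE4
  have hTL := hTL E z x y hE1 hS u v Q b hIn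
  have hyz : y ≤ z := Sr_yz (by omega) hE5 hS
  have hP : P ⊆ Icc 1 z := hPy.trans (Finset.Icc_subset_Icc_right hyz)
  -- `z`
  have hzE : Real.exp E ≤ z := hS.1
  have hzE' : (E : ℝ) + 1 ≤ z := (Real.add_one_le_exp _).trans hzE
  have hzE2 : E + 1 ≤ z := by exact_mod_cast hzE'
  have hz3 : 2 ≤ z := by omega
  have hz0 : 1 ≤ z := by omega
  have hzp : (0 : ℝ) < z := by linarith only [hc0p, hc2, hEpos, hzE']
  -- `y`
  have hy2 := Sr_y hS
  have hK2 : (2 * K) ^ 2 ≤ E := by
    rcases le_total 4 K with h | h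
    · calc (2 * K) ^ 2 = 4 * K ^ 2 := by ring
        _ ≤ K * K ^ 2 := Nat.mul_le_mul_right _ h
        _ = K ^ 3 := by ring
        _ ≤ E := hK
    · have h5 : K ^ 2 ≤ 4 ^ 2 := Nat.pow_le_pow_left h 2
      calc (2 * K) ^ 2 = 4 * K ^ 2 := by ring
        _ ≤ 4 * 4 ^ 2 := Nat.mul_le_mul_left _ h5
        _ ≤ E := by omega
  have hKE : 2 * K ≤ E := by nlinarith only [hE4, hK2]
  have hyE : E * E ≤ y := by
    have : ((E * E : ℕ) : ℝ) ≤ y := by
      push_cast
      nlinarith only [hy2]
    exact_mod_cast this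
  have hy4 : 4 * (2 * K) ≤ y := by nlinarith only [hE4, hKE, hyE]
  have hy1 : 1 ≤ y := by nlinarith only [hE4, hyE]
  have ho := om_nonneg y z
  have hinj : Function.Injective (fun i : P => (i : ℕ)) := Subtype.val_injective
  have hgg : ∀ B : Finset P, B.card ≤ 2 * K →
      0 ≤ gB y z (B.image (fun i : P => (i : ℕ))) ∧
        gB y z (B.image (fun i : P => (i : ℕ))) ≤ (8 * om y z) ^ B.card := by
    intro B hB
    have hcard : (B.image (fun i : P => (i : ℕ))).card = B.card :=
      Finset.card_image_of_injective B hinj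
    have h5 := h0 y z (B.image (fun i : P => (i : ℕ))) hy1 (by
        intro i hi
        obtain ⟨j, _, rfl⟩ := Finset.mem_image.mp hi
        exact hP j.2) (by rw [hcard]; omega) (by
        rw [hcard]
        have e1 : (B.card : ℝ) ^ 2 ≤ E := by
          have : B.card ^ 2 ≤ E := (Nat.pow_le_pow_left hB 2).trans hK2
          exact_mod_cast this
        have e2 : 0 ≤ Real.log z := Real.log_nonneg (by linarith only [hc0p, hc2, hEpos, hzE'])
        calc (B.card : ℝ) ^ 2 * Real.log z ≤ E * Real.log z := mul_le_mul_of_nonneg_right e1 e2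
          _ ≤ Real.log x := Sr_x hS
          _ ≤ y := hS.2.2.2.1)
    rw [hcard] at h5
    exact ⟨h5.1, h5.2.2⟩
  have hgw : ∀ r : P → ℕ,
      gB y z ((univ.filter (fun i => r i ≠ 0)).image (fun i : P => (i : ℕ))) = gg y z (nz r) := by
    intro r
    have h5 := Pool.Agent.Helper31.GM.gw y z 0
      ((univ.filter (fun i => r i ≠ 0)).image (fun i : P => (i : ℕ))) (by
        intro i hi
        obtain ⟨j, _, rfl⟩ := Finset.mem_image.mp hi
        have := hPy j.2
        rw [Finset.mem_Icc] at this ⊢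
        omega)
    rw [h5, Finset.card_image_of_injective _ hinj]
    rfl
  have hMz : E / 16 ≤ z := by omega
  have hCBa := hCB m q (E / 16) z hm hz3 hMz hV
  have hCBb := hCB m q (E / 32) z hm hz3 (by omega) hV
  have hKsq : (36 : ℝ) * (K : ℝ) ^ 2 ≤ 36 * E := by
    have h5 : (K : ℝ) ^ 2 ≤ E := by
      have : K ^ 2 ≤ E := by nlinarith only [hE4, hK2]
      exact_mod_cast this
    linarith only [h5]
  -- constants
  set Lam : ℝ := 8 * (3 * C ^ 2 * (C' * ((2 * (E / 16) : ℕ) : ℝ)) ^ 3) with hLam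
  have hLam0 : 0 ≤ Lam := by positivity
  have hLamE : Lam ≤ 8 * (3 * C ^ 2 * C' ^ 3) * (E : ℝ) ^ 3 := by
    rw [hLam]
    have h5 : ((2 * (E / 16) : ℕ) : ℝ) ≤ E := by
      have : 2 * (E / 16) ≤ E := by omega
      exact_mod_cast this
    calc 8 * (3 * C ^ 2 * (C' * ((2 * (E / 16) : ℕ) : ℝ)) ^ 3)
        ≤ 8 * (3 * C ^ 2 * (C' * (E : ℝ)) ^ 3) := by
          gcongr
      _ = 8 * (3 * C ^ 2 * C' ^ 3) * (E : ℝ) ^ 3 := by ring
  set G : ℝ := (1 + Lam) * (1 + (E : ℝ) ^ 2 * Lam) ^ (2 * K) with hG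
  have hG0 : 0 ≤ G := by positivity
  have hGE : (1 + 36 * (E : ℝ)) * G ≤ Real.exp (c0 * E) := by
    refine le_trans ?_ (hEe E K hE3 hK)
    rw [hG]
    gcongr
  have hfin : (Real.exp (-(c * E)) + 9 * ((2 * K : ℕ) : ℝ) ^ 2 / z) * G
      ≤ Real.exp (-(c0 * E)) := by
    have h5 : Real.exp (-(c * E)) ≤ Real.exp (-(2 * c0 * E)) := by
      refine Real.exp_le_exp.mpr ?_
      have := mul_le_mul_of_nonneg_right hc1 (by linarith only [hc0p, hc2, hEpos] : (0 : ℝ) ≤ E)
      linarith only [this]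
    have h6 : 9 * ((2 * K : ℕ) : ℝ) ^ 2 / z ≤ 36 * E * Real.exp (-(2 * c0 * E)) := by
      have h7 : 9 * ((2 * K : ℕ) : ℝ) ^ 2 = 36 * (K : ℝ) ^ 2 := by
        push_cast
        ring
      rw [h7, div_le_iff₀ hzp]
      have h8 : (1 : ℝ) ≤ Real.exp (-(2 * c0 * E)) * z := by
        calc (1 : ℝ) = Real.exp (-(E : ℝ)) * Real.exp E := by
              rw [← Real.exp_add, neg_add_cancel, Real.exp_zero]
          _ ≤ Real.exp (-(2 * c0 * E)) * z := by
              refine mul_le_mul ?_ hzE (Real.exp_pos _).le (Real.exp_pos _).le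
              refine Real.exp_le_exp.mpr ?_
              have := mul_le_mul_of_nonneg_right hc2 (by linarith only [hc0p, hc2, hEpos] : (0 : ℝ) ≤ E)
              linarith only [this]
      calc 36 * (K : ℝ) ^ 2 ≤ 36 * E := hKsq
        _ = 36 * E * 1 := by ring
        _ ≤ 36 * E * (Real.exp (-(2 * c0 * E)) * z) :=
            mul_le_mul_of_nonneg_left h8 (by positivity)
        _ = 36 * E * Real.exp (-(2 * c0 * E)) * z := by ring
    calc (Real.exp (-(c * E)) + 9 * ((2 * K : ℕ) : ℝ) ^ 2 / z) * G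
        ≤ (Real.exp (-(2 * c0 * E)) + 36 * E * Real.exp (-(2 * c0 * E))) * G :=
          mul_le_mul_of_nonneg_right (add_le_add h5 h6) hG0
      _ = Real.exp (-(2 * c0 * E)) * ((1 + 36 * (E : ℝ)) * G) := by ring
      _ ≤ Real.exp (-(2 * c0 * E)) * Real.exp (c0 * E) :=
          mul_le_mul_of_nonneg_left hGE (Real.exp_pos _).le
      _ = Real.exp (-(c0 * E)) := by
          rw [← Real.exp_add]
          congr 1
          ring
  -- the sets
  set al : P → ℕ → ℝ := fun i r =>
    if i ∈ F then (if r ∈ SS z (z ^ (E / 32)) then 1 / (VM (E / 32) z * (Nat.totient r : ℝ))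
      else 0)
    else if i ∈ G0 then (if r = 1 then 1 else 0)
    else (if r = 0 then 1 else if r ∈ LA z m (q * m) then ab m q z r else 0) with hal
  set BB : Finset (Finset P) :=
    (univ : Finset (Finset P)).filter (fun B => (∅ : Finset P) ⊆ B ∧ B.card ≤ 2 * K) with hBB
  have hSS0 : ∀ r, r ∈ SS z (z ^ (E / 16)) → r ≠ 0 := by
    intro r hr
    have := (mem_SS.mp hr).1.1
    omega
  have hsub : ∀ r, r ∈ SS z (z ^ (E / 32)) → r ∈ SS z (z ^ (E / 16)) := by
    intro r hr
    rw [mem_SS] at hr ⊢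
    refine ⟨⟨hr.1.1, hr.1.2.trans_le (Nat.pow_le_pow_right hz0 (by omega))⟩, hr.2⟩
  have hLA0 : ∀ r, r ∈ LA z m (q * m) → r ≠ 0 := fun r hr =>
    hSS0 r (LA_sub hz0 hqm hr)
  have hone : 1 ∈ SS z (z ^ (E / 16)) := by
    rw [mem_SS]
    refine ⟨⟨le_rfl, ?_⟩, ?_⟩
    · exact Nat.one_lt_pow (by omega) (by omega)
    · refine ⟨squarefree_one, ?_⟩
      intro p hp hp1
      exact absurd (Nat.dvd_one.mp hp1) hp.one_lt.ne'
  have hlab : ∀ r ∈ T, ∀ i, r i = 0 ∨ r i ∈ SS z (z ^ (E / 16)) := by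
    intro r hr i
    by_cases hi : i ∈ F
    · exact Or.inr (hsub _ (hT2 r hr i hi))
    · by_cases hi' : i ∈ G0
      · rw [hT2' r hr i hi']
        exact Or.inr hone
      · rcases hT1 r hr i hi hi' with h5 | h5
        · exact Or.inl h5
        · exact Or.inr (LA_sub hz0 hqm h5)
  have hV1 := VM_nonneg (E / 32) z
  have hXI := XI_nonneg u v Q
  have key := h2 P (fun i => (i : ℕ)) y z (z ^ (E / 16)) (z ^ (E / 4)) (2 * K) (NI u v Q b)
    (XI u v Q) (8 * om y z) (Real.exp (-(c * E))) C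
    (fun B : Finset P => gB y z (B.image (fun i : P => (i : ℕ)))) T cc al BB hz3 hXI
    (by positivity) (Real.exp_pos _).le hC (fun B hB => hgg B (by
      rw [hBB, Finset.mem_filter] at hB
      exact hB.2.2)) hlab ?_ ?_ ?_ ?_ ?_ ?_ ?_ ?_ ?_
  · simp only [hgw] at key
    refine key.trans ?_
    have hX2 : (z ^ (E / 16)) ^ 2 = z ^ (2 * (E / 16)) := by rw [← pow_mul, mul_comm]
    have hMA := (h4 z (2 * (E / 16)) hz3 (by omega)).2.2
    rw [← hX2] at hMA
    set w : ℝ := 3 * C ^ 2 * ∑ e ∈ SS z ((z ^ (E / 16)) ^ 2), (3 : ℝ) ^ e.primeFactors.card / e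
      with hw
    have hw0 : 0 ≤ w := by positivity
    have hwL : 8 * w ≤ Lam := by
      rw [hw, hLam]
      have := mul_le_mul_of_nonneg_left hMA (by positivity : (0 : ℝ) ≤ 3 * C ^ 2)
      linarith only [this]
    have hsum := sumBB (∅ : Finset P) (2 * K) (8 * om y z * w) (by positivity)
    have hnu : (Fintype.card P : ℝ) * (8 * om y z * w) ≤ (E : ℝ) ^ 2 * Lam := by
      rw [Fintype.card_coe]
      calc (P.card : ℝ) * (8 * om y z * w) = (P.card : ℝ) * om y z * (8 * w) := by ring
        _ ≤ (E : ℝ) ^ 2 * Lam := mul_le_mul hPA hwL (by positivity) (by positivity)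
    have hsum2 : ∑ B ∈ BB, (8 * om y z * w) ^ B.card ≤ G := by
      refine hsum.trans ?_
      rw [hG, Finset.card_empty, pow_zero]
      refine mul_le_mul (by linarith only [hLam0]) ?_ (by positivity) (by positivity)
      exact pow_le_pow_left₀ (by positivity) (by linarith only [hnu]) _
    have hδ : 0 ≤ Real.exp (-(c * E)) + 9 * ((2 * K : ℕ) : ℝ) ^ 2 / z := by positivity
    calc XI u v Q * (Real.exp (-(c * E)) + 9 * ((2 * K : ℕ) : ℝ) ^ 2 / z) *
          ∑ B ∈ BB, (8 * om y z * w) ^ B.card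
        ≤ XI u v Q * (Real.exp (-(c * E)) + 9 * ((2 * K : ℕ) : ℝ) ^ 2 / z) * G :=
          mul_le_mul_of_nonneg_left hsum2 (mul_nonneg hXI hδ)
      _ = ((Real.exp (-(c * E)) + 9 * ((2 * K : ℕ) : ℝ) ^ 2 / z) * G) * XI u v Q := by ring
      _ ≤ Real.exp (-(c0 * E)) * XI u v Q :=
          mul_le_mul_of_nonneg_right hfin hXI
  · -- a label `1` only occurs on `F` and `G0`
    intro r hr s hs i hi
    by_cases hiF : i ∈ F
    · exact hSS0 _ (hsub _ (hT2 s hs i hiF))
    · by_cases hiG : i ∈ G0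
      · rw [hT2' s hs i hiG]
        exact one_ne_zero
      · exfalso
        rcases hT1 r hr i hiF hiG with h5 | h5
        · omega
        · have h6 := (mem_LA.mp h5).2
          have h7 : z ^ 1 ≤ z ^ m := Nat.pow_le_pow_right hz0 hm
          rw [pow_one] at h7
          omega
  · -- size
    intro r hr
    calc (∏ i, max 1 (r i)) ^ 2 ≤ (z ^ (2 * (E / 16))) ^ 2 := Nat.pow_le_pow_left (hT4 r hr) 2
      _ = z ^ (2 * (E / 16) * 2) := by rw [← pow_mul]
      _ ≤ z ^ (E / 4) := Nat.pow_le_pow_right hz0 (by omega)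
  · -- supports
    intro r hr s hs
    rw [hBB, Finset.mem_filter]
    refine ⟨Finset.mem_univ _, Finset.empty_subset _, ?_⟩
    rw [Finset.filter_or]
    refine (Finset.card_union_le _ _).trans ?_
    have h5 := hT3 r hr
    have h6 := hT3 s hs
    unfold nz at h5 h6
    omega
  · intro B hB
    rw [hBB, Finset.mem_filter] at hB
    exact hB.2.2
  · -- nonnegativity
    intro i r
    rw [hal]
    have h5 := ab_nonneg m q z r
    simp only
    split_ifs <;> positivity
  · intro i
    rw [hal]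
    simp only
    by_cases hi : i ∈ F
    · rw [if_pos hi, if_neg (fun h5 => hSS0 0 (hsub _ h5) rfl)]
      norm_num
    · rw [if_neg hi]
      by_cases hi' : i ∈ G0
      · rw [if_pos hi']
        norm_num
      · rw [if_neg hi']
        simp
  · -- the coefficients
    intro r hr
    refine (hT5 r hr).trans (le_of_eq (Finset.prod_congr rfl fun i _ => ?_))
    rw [hal]
    simp only
    by_cases hi : i ∈ F
    · rw [if_pos hi, if_pos hi, if_pos (hT2 r hr i hi)]
    · rw [if_neg hi, if_neg hi]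
      by_cases hi' : i ∈ G0
      · rw [if_pos hi', if_pos hi', if_pos (hT2' r hr i hi')]
      · rw [if_neg hi', if_neg hi']
        rcases hT1 r hr i hi hi' with h5 | h5
        · rw [if_pos h5, if_pos h5]
        · rw [if_neg (hLA0 _ h5), if_neg (hLA0 _ h5), if_pos h5]
  · -- divisor sums
    intro i d hd
    obtain ⟨hc1, _⟩ := hCBa d hd
    by_cases hi : i ∈ F
    · have h5 : ∑ r ∈ (SS z (z ^ (E / 16))).filter (fun r => d ∣ r), al i r
          = 1 / VM (E / 32) z * ∑ r ∈ (SS z (z ^ (E / 32))).filter (fun r => d ∣ r),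
            1 / (Nat.totient r : ℝ) := by
        have h6 : ∀ r ∈ (SS z (z ^ (E / 16))).filter (fun r => d ∣ r), al i r =
            if r ∈ SS z (z ^ (E / 32)) then 1 / (VM (E / 32) z * (Nat.totient r : ℝ)) else 0 := by
          intro r hr
          rw [hal]
          simp only
          rw [if_pos hi]
        rw [Finset.sum_congr rfl h6, ← Finset.sum_filter, Finset.mul_sum]
        refine Finset.sum_congr ?_ fun r _ => ?_
        · ext r
          simp only [Finset.mem_filter]
          constructor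
          · rintro ⟨⟨_, h7⟩, h8⟩
            exact ⟨h8, h7⟩
          · rintro ⟨h7, h8⟩
            exact ⟨⟨hsub _ h7, h8⟩, h7⟩
        · rw [one_div_mul_one_div]
      rw [h5]
      by_cases hd2 : d ∈ SS z (z ^ (E / 32))
      · obtain ⟨_, hc2⟩ := hCBb d hd2
        have h6 : ∑ r ∈ SS z (z ^ (E / 32)), 1 / (Nat.totient r : ℝ) = VM (E / 32) z := rfl
        rw [h6] at hc2
        rcases hV1.eq_or_lt with h7 | h7
        · rw [← h7]
          simp
          linarith
        · calc (d : ℝ) * (1 / VM (E / 32) z * ∑ r ∈ (SS z (z ^ (E / 32))).filter (fun r => d ∣ r),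
              1 / (Nat.totient r : ℝ))
              = ((d : ℝ) * ∑ r ∈ (SS z (z ^ (E / 32))).filter (fun r => d ∣ r),
              1 / (Nat.totient r : ℝ)) / VM (E / 32) z := by ring
            _ ≤ C * VM (E / 32) z / VM (E / 32) z := by gcongr
            _ = C := by field_simp
      · have h7 : (SS z (z ^ (E / 32))).filter (fun r => d ∣ r) = ∅ := by
          rw [Finset.filter_eq_empty_iff]
          intro r hr hdr
          apply hd2
          rw [mem_SS] at hr hd ⊢
          exact ⟨⟨hd.1.1, (Nat.le_of_dvd hr.1.1 hdr).trans_lt hr.1.2⟩, hd.2⟩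
        rw [h7]
        simp
        linarith only [hC, hc0p, hc2]
    · by_cases hi' : i ∈ G0
      · have h6 : ∀ r ∈ (SS z (z ^ (E / 16))).filter (fun r => d ∣ r), al i r =
            if r = 1 then 1 else 0 := by
          intro r hr
          rw [hal]
          simp only
          rw [if_neg hi, if_pos hi']
        rw [Finset.sum_congr rfl h6]
        by_cases hd1 : d = 1
        · subst hd1
          rw [Finset.sum_ite_eq' _ 1 (fun _ => (1 : ℝ))]
          split_ifs <;> norm_num <;> linarith only [hC, hc0p, hc2]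
        · have h7 : ∑ r ∈ (SS z (z ^ (E / 16))).filter (fun r => d ∣ r),
              (if r = 1 then (1 : ℝ) else 0) = 0 := by
            refine Finset.sum_eq_zero fun r hr => ?_
            rw [if_neg]
            rintro rfl
            exact hd1 (Nat.dvd_one.mp (Finset.mem_filter.mp hr).2)
          rw [h7, mul_zero]
          linarith only [hC, hc0p, hc2]
      · refine le_of_eq_of_le ?_ hc1
        congr 1
        have h5 : ∀ r ∈ (SS z (z ^ (E / 16))).filter (fun r => d ∣ r), al i r =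
            if r ∈ LA z m (q * m) then ab m q z r else 0 := by
          intro r hr
          rw [hal]
          simp only
          rw [if_neg hi, if_neg hi', if_neg (hSS0 r (Finset.mem_filter.mp hr).1)]
        rw [Finset.sum_congr rfl h5, ← Finset.sum_filter]
        refine Finset.sum_congr ?_ fun _ _ => rfl
        ext r
        simp only [Finset.mem_filter]
        constructor
        · rintro ⟨⟨_, h7⟩, h8⟩
          exact ⟨h8, h7⟩
        · rintro ⟨h7, h8⟩
          exact ⟨⟨LA_sub hz0 hqm h7, h8⟩, h7⟩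
  · -- counting
    intro d hd hD hdB
    rw [hBB, Finset.mem_filter] at hdB
    refine tlc (Real.exp_pos _).le hXI hP (fun B hB hBK d hd hD => ?_) d hd hD hdB.2.2
    exact hTL B hB ((Nat.pow_le_pow_left hBK 2).trans hK2) d hd hD

end Pool.Agent.Helper25.MC
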